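import Mathlib

/-!
# A critical set of the cyclic latin square, with `⌊t² / 4⌋` cells
-/

set_option autoImplicit false

namespace Pool.Agent.W2helper91.RK

open Finset Function

/-- the cyclic latin square -/
def Lt {t : ℕ} (i j : Fin t) : Fin t := ⟨(i.1 + j.1) % t, Nat.mod_lt _ (Nat.zero_lt_of_lt i.2)⟩

theorem Lt_lt {t : ℕ} {i j : Fin t} (h : i.1 + j.1 < t) : (Lt i j).1 = i.1 + j.1 :=
  Nat.mod_eq_of_lt h

theorem Lt_ge {t : ℕ} {i j : Fin t} (h : t ≤ i.1 + j.1) : (Lt i j).1 = i.1 + j.1 - t := by
  have hi := i.2
  have hj := j.2
  change (i.1 + j.1) % t = _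
  rw [Nat.mod_eq_sub_mod h, Nat.mod_eq_of_lt (by omega)]

/-- the uncoloured cells -/
def TT (t : ℕ) : Finset (Fin t × Fin t) :=
  univ.filter (fun p => t / 2 ≤ p.1.1 + p.2.1 ∧ p.1.1 + p.2.1 < t + t / 2)

theorem row_inj {t : ℕ} (i : Fin t) : Injective (Lt i) := by
  intro j j' h
  have hi := i.2
  have hj := j.2
  have hj' := j'.2
  have h1 := congrArg Fin.val h
  apply Fin.ext
  rcases Nat.lt_or_ge (i.1 + j.1) t with a | a <;> rcases Nat.lt_or_ge (i.1 + j'.1) t with b | b
  · rw [Lt_lt a, Lt_lt b] at h1; omega
  · rw [Lt_lt a, Lt_ge b] at h1; omega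
  · rw [Lt_ge a, Lt_lt b] at h1; omega
  · rw [Lt_ge a, Lt_ge b] at h1; omega

theorem Lt_comm {t : ℕ} (i j : Fin t) : Lt i j = Lt j i := by
  apply Fin.ext
  change (i.1 + j.1) % t = (j.1 + i.1) % t
  rw [Nat.add_comm]

theorem col_inj {t : ℕ} (j : Fin t) : Injective (fun i => Lt i j) := by
  intro i i' h
  simp only [Lt_comm _ j] at h
  exact row_inj j h

section rigid

variable {t : ℕ} (g : Fin t → Fin t → Fin t) (hr : ∀ i, Injective (g i))
  (hc : ∀ j, Injective (fun i => g i j)) (hg : ∀ i j, (i, j) ∉ TT t → g i j = Lt i j)

include hr hc hg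

theorem known1 (i j : Fin t) (h : i.1 + j.1 < t / 2) : (g i j).1 = i.1 + j.1 := by
  rw [hg i j (by simp only [TT, mem_filter, mem_univ, true_and]; omega), Lt_lt (by omega)]

theorem known2 (i j : Fin t) (h : t + t / 2 ≤ i.1 + j.1) : (g i j).1 = i.1 + j.1 - t := by
  rw [hg i j (by simp only [TT, mem_filter, mem_univ, true_and]; omega), Lt_ge (by omega)]

theorem low (M : ℕ) : ∀ i j : Fin t, i.1 + j.1 < t → (i.1 + j.1) * (t + 1) + i.1 = M →
    (g i j).1 = i.1 + j.1 := by
  induction M using Nat.strong_induction_on with
  | _ M ih =>
    intro i j hij hM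
    have hi := i.2
    have hj := j.2
    rcases Nat.lt_or_ge (i.1 + j.1) (t / 2) with h | h
    · exact known1 g hr hc hg i j h
    · -- the row `i` contains the symbol `x = i + j`
      obtain ⟨j', hj'⟩ := (Finite.injective_iff_surjective.1 (hr i)) ⟨i.1 + j.1, hij⟩
      have hj'2 := j'.2
      have hval : (g i j').1 = i.1 + j.1 := by rw [hj']
      have hjj : j' = j := by
        apply Fin.ext
        by_contra hne
        rcases Nat.lt_or_ge j'.1 j.1 with h1 | h1
        · -- smaller antidiagonal
          have h2 := ih ((i.1 + j'.1) * (t + 1) + i.1) (by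
            rw [← hM]
            have : (i.1 + j'.1) * (t + 1) < (i.1 + j.1) * (t + 1) :=
              Nat.mul_lt_mul_of_pos_right (by omega) (by omega)
            omega) i j' (by omega) rfl
          omega
        · rcases Nat.lt_or_ge (i.1 + j.1) j'.1 with h2 | h2
          · -- column `j'` contains `x` in the row `t + x - j'`
            have h3 := known2 g hr hc hg ⟨t + (i.1 + j.1) - j'.1, by omega⟩ j' (by
              simp only
              omega)
            simp only at h3
            have h4 : g ⟨t + (i.1 + j.1) - j'.1, by omega⟩ j' = g i j' := by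
              apply Fin.ext
              rw [h3, hval]
              omega
            have h5 := congrArg Fin.val (hc j' h4)
            simp only at h5
            omega
          · -- column `j'` contains `x` in the row `x - j' < i`
            have h3 := ih (((i.1 + j.1) - j'.1 + j'.1) * (t + 1) + ((i.1 + j.1) - j'.1)) (by
              rw [← hM]
              have : (i.1 + j.1) - j'.1 + j'.1 = i.1 + j.1 := by omega
              rw [this]
              omega) ⟨(i.1 + j.1) - j'.1, by omega⟩ j' (by simp only; omega) rfl
            simp only at h3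
            have h4 : g ⟨(i.1 + j.1) - j'.1, by omega⟩ j' = g i j' := by
              apply Fin.ext
              rw [h3, hval]
              omega
            have h5 := congrArg Fin.val (hc j' h4)
            simp only at h5
            omega
      rw [← hjj]
      rw [hval, hjj]

theorem high (M : ℕ) : ∀ i j : Fin t, t ≤ i.1 + j.1 → (2 * t - (i.1 + j.1)) * (t + 1) + (t - i.1) = M →
    (g i j).1 = i.1 + j.1 - t := by
  induction M using Nat.strong_induction_on with
  | _ M ih =>
    intro i j hij hM
    have hi := i.2
    have hj := j.2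
    rcases Nat.lt_or_ge (i.1 + j.1) (t + t / 2) with h | h
    · -- the row `i` contains the symbol `y = i + j - t`
      obtain ⟨j', hj'⟩ := (Finite.injective_iff_surjective.1 (hr i)) ⟨i.1 + j.1 - t, by omega⟩
      have hj'2 := j'.2
      have hval : (g i j').1 = i.1 + j.1 - t := by rw [hj']
      have hjj : j' = j := by
        apply Fin.ext
        by_contra hne
        rcases Nat.lt_or_ge j.1 j'.1 with h1 | h1
        · -- larger antidiagonal
          have h2 := ih ((2 * t - (i.1 + j'.1)) * (t + 1) + (t - i.1)) (by
            rw [← hM]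
            have : (2 * t - (i.1 + j'.1)) * (t + 1) < (2 * t - (i.1 + j.1)) * (t + 1) :=
              Nat.mul_lt_mul_of_pos_right (by omega) (by omega)
            omega) i j' (by omega) rfl
          omega
        · rcases Nat.lt_or_ge (i.1 + j.1 - t) j'.1 with h2 | h2
          · -- column `j'` contains `y` in the row `t + y - j' > i`
            have h3 := ih ((2 * t - ((i.1 + j.1) - j'.1 + j'.1)) * (t + 1) +
                (t - ((i.1 + j.1) - j'.1))) (by
              rw [← hM]
              have : (i.1 + j.1) - j'.1 + j'.1 = i.1 + j.1 := by omega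
              rw [this]
              omega) ⟨(i.1 + j.1) - j'.1, by omega⟩ j' (by simp only; omega) rfl
            simp only at h3
            have h4 : g ⟨(i.1 + j.1) - j'.1, by omega⟩ j' = g i j' := by
              apply Fin.ext
              rw [h3, hval]
              omega
            have h5 := congrArg Fin.val (hc j' h4)
            simp only at h5
            omega
          · -- column `j'` contains `y` in the row `y - j'`
            have h3 := known1 g hr hc hg ⟨(i.1 + j.1 - t) - j'.1, by omega⟩ j' (by
              simp only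
              omega)
            simp only at h3
            have h4 : g ⟨(i.1 + j.1 - t) - j'.1, by omega⟩ j' = g i j' := by
              apply Fin.ext
              rw [h3, hval]
              omega
            have h5 := congrArg Fin.val (hc j' h4)
            simp only at h5
            omega
      rw [← hjj]
      rw [hval, hjj]
    · exact known2 g hr hc hg i j h

/-- the partial latin square has a unique completion -/
theorem rigid : g = Lt := by
  funext i j
  apply Fin.ext
  rcases Nat.lt_or_ge (i.1 + j.1) t with h | h
  · rw [low g hr hc hg _ i j h rfl, Lt_lt h]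
  · rw [high g hr hc hg _ i j h rfl, Lt_ge h]

end rigid

theorem sum_aux0 (s : ℕ) : 2 * ∑ i ∈ range s, ((s - i) + (i - s)) = s * (s + 1) := by
  have h : ∀ s : ℕ, 2 * ∑ i ∈ range s, (s - i) = s * (s + 1) := by
    intro s
    induction s with
    | zero => simp
    | succ s ih =>
      rw [sum_range_succ]
      have : ∑ i ∈ range s, (s + 1 - i) = ∑ i ∈ range s, ((s - i) + 1) := by
        refine sum_congr rfl fun i hi => ?_
        have := mem_range.1 hi
        omega
      rw [this, sum_add_distrib, sum_const, card_range, smul_eq_mul, mul_one]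
      have e : s + 1 - s = 1 := by omega
      rw [e]
      linarith
  rw [← h s]
  congr 1
  refine sum_congr rfl fun i hi => ?_
  have := mem_range.1 hi
  omega

theorem sum_aux (s m : ℕ) :
    2 * ∑ i ∈ range (s + m), ((s - i) + (i - s)) + m = s * (s + 1) + m ^ 2 := by
  induction m with
  | zero => simpa using sum_aux0 s
  | succ m ih =>
    have e0 : s + (m + 1) = (s + m) + 1 := by omega
    rw [e0, sum_range_succ]
    have e : s - (s + m) + (s + m - s) = m := by omega
    rw [e]
    nlinarith [ih]

theorem card_TT (t : ℕ) : (TT t).card + t ^ 2 / 4 = t ^ 2 := by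
  have h1 : (TT t).card = ∑ i ∈ range t, (t - ((t / 2 - i) + (i - t / 2))) := by
    rw [card_eq_sum_card_fiberwise (f := Prod.fst) (t := univ) (fun x _ => mem_univ _),
      ← Fin.sum_univ_eq_sum_range (fun i => t - ((t / 2 - i) + (i - t / 2)))]
    refine sum_congr rfl fun i _ => ?_
    have hi := i.2
    have h2 : ((TT t).filter (fun p => p.1 = i)).card =
        (Finset.Ico (t / 2 - i.1) (min t (t + t / 2 - i.1))).card := by
      refine card_bij' (fun p _ => p.2.1) (fun a ha => (i, ⟨a, ?_⟩)) ?_ ?_ ?_ ?_
      · rw [mem_Ico] at ha
        omega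
      · intro p hp
        simp only [TT, mem_filter, mem_univ, true_and] at hp
        have h3 := p.2.2
        have h4 := congrArg Fin.val hp.2
        rw [mem_Ico]
        omega
      · intro a ha
        rw [mem_Ico] at ha
        simp only [TT, mem_filter, mem_univ, true_and, and_true]
        omega
      · intro p hp
        rw [mem_filter] at hp
        ext
        · exact congrArg Fin.val hp.2.symm
        · rfl
      · intro a ha
        rfl
    rw [h2, Nat.card_Ico]
    omega
  have h2 : ∑ i ∈ range t, (t - ((t / 2 - i) + (i - t / 2))) +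
      ∑ i ∈ range t, ((t / 2 - i) + (i - t / 2)) = t ^ 2 := by
    rw [← sum_add_distrib, sq]
    have : ∀ i ∈ range t, t - (t / 2 - i + (i - t / 2)) + (t / 2 - i + (i - t / 2)) = t := by
      intro i hi
      have := mem_range.1 hi
      omega
    rw [sum_congr rfl this, sum_const, card_range, smul_eq_mul]
  have h3 := sum_aux (t / 2) (t - t / 2)
  have e : t / 2 + (t - t / 2) = t := by omega
  rw [e] at h3
  have h4 : ∑ i ∈ range t, ((t / 2 - i) + (i - t / 2)) = t ^ 2 / 4 := by
    rcases Nat.even_or_odd' t with ⟨s, hs | hs⟩
    · have e1 : t / 2 = s := by omega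
      have e2 : t - t / 2 = s := by omega
      rw [e2, e1] at h3
      rw [e1]
      have e3 : t ^ 2 / 4 = s ^ 2 := by
        rw [hs]
        have : (2 * s) ^ 2 = 4 * s ^ 2 := by ring
        rw [this]
        omega
      rw [e3]
      nlinarith [h3]
    · have e1 : t / 2 = s := by omega
      have e2 : t - t / 2 = s + 1 := by omega
      rw [e2, e1] at h3
      rw [e1]
      have e3 : t ^ 2 / 4 = s * (s + 1) := by
        rw [hs]
        have : (2 * s + 1) ^ 2 = 4 * (s * (s + 1)) + 1 := by ring
        rw [this]
        omega
      rw [e3]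
      nlinarith [h3]
  rw [h1, ← h4]
  exact h2

end Pool.Agent.W2helper91.RK
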