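import Pool.Agent.Helper372.RookDefining
import Pool.Agent.W2helper91.RK.Lat

/-!
# Block arrays with latin diagonal blocks
-/

set_option autoImplicit false

namespace Pool.Agent.W2helper91.RK

open Finset Function

section block

variable {Q F : Type} [Fintype Q] [DecidableEq Q] [Fintype F]
  (f : Q → Q → F) (o : Q → Q → Bool) (t : ℕ)

/-- the colouring of the `Q × Fin t` by `Q × Fin t` array -/
def Phi (x y : Q × Fin t) : ((F × Bool) × Fin t) ⊕ Fin t :=
  if x.1 = y.1 then Sum.inr (Lt x.2 y.2) else Sum.inl ((f x.1 y.1, o x.1 y.1), Lt x.2 y.2)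

/-- the uncoloured cells -/
def TB : Finset ((Q × Fin t) × (Q × Fin t)) :=
  univ.filter (fun p => p.1.1 = p.2.1 ∧ (p.1.2, p.2.2) ∈ TT t)

theorem card_TB : (TB (Q := Q) t).card = Fintype.card Q * (TT t).card := by
  have : (TB (Q := Q) t).card = ((univ : Finset Q) ×ˢ TT t).card := by
    refine card_bij' (fun p _ => (p.1.1, (p.1.2, p.2.2)))
      (fun a _ => ((a.1, a.2.1), (a.1, a.2.2))) ?_ ?_ ?_ ?_
    · intro p hp
      simp only [TB, mem_filter, mem_univ, true_and] at hp
      rw [mem_product]
      exact ⟨mem_univ _, hp.2⟩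
    · intro a ha
      rw [mem_product] at ha
      simp only [TB, mem_filter, mem_univ, true_and]
      exact ha.2
    · intro p hp
      simp only [TB, mem_filter, mem_univ, true_and] at hp
      ext
      · rfl
      · rfl
      · exact hp.1
      · rfl
    · intro a ha
      rfl
  rw [this, card_product, card_univ]

variable (fs : ∀ u v, f u v = f v u) (fi : ∀ u v v', v ≠ u → v' ≠ u → f u v = f u v' → v = v')
  (fsur : ∀ u z, ∃ v, v ≠ u ∧ f u v = z) (oa : ∀ u v, u ≠ v → o v u = !o u v)

include fi in
theorem phi_row (x : Q × Fin t) : Injective (Phi f o t x) := by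
  intro y y' h
  unfold Phi at h
  by_cases h1 : x.1 = y.1 <;> by_cases h2 : x.1 = y'.1
  · rw [if_pos h1, if_pos h2] at h
    have h3 := row_inj _ (Sum.inr_injective h)
    exact Prod.ext (h1.symm.trans h2) h3
  · rw [if_pos h1, if_neg h2] at h
    exact absurd h (by simp)
  · rw [if_neg h1, if_pos h2] at h
    exact absurd h (by simp)
  · rw [if_neg h1, if_neg h2] at h
    have h3 := Sum.inl_injective h
    rw [Prod.mk.injEq, Prod.mk.injEq] at h3
    exact Prod.ext (fi _ _ _ (Ne.symm h1) (Ne.symm h2) h3.1.1) (row_inj _ h3.2)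

include fs fi in
theorem phi_col (y : Q × Fin t) : Injective (fun x => Phi f o t x y) := by
  intro x x' h
  simp only [Phi] at h
  by_cases h1 : x.1 = y.1 <;> by_cases h2 : x'.1 = y.1
  · rw [if_pos h1, if_pos h2] at h
    have h3 := col_inj _ (Sum.inr_injective h)
    exact Prod.ext (h1.trans h2.symm) h3
  · rw [if_pos h1, if_neg h2] at h
    exact absurd h (by simp)
  · rw [if_neg h1, if_pos h2] at h
    exact absurd h (by simp)
  · rw [if_neg h1, if_neg h2] at h
    have h3 := Sum.inl_injective h
    rw [Prod.mk.injEq, Prod.mk.injEq] at h3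
    have h4 := h3.1.1
    rw [fs x.1, fs x'.1] at h4
    exact Prod.ext (fi _ _ _ h1 h2 h4) (col_inj _ h3.2)

theorem Lt_surj_row {t : ℕ} (i x : Fin t) : ∃ j, Lt i j = x :=
  (Finite.injective_iff_surjective.1 (row_inj i)) x

theorem Lt_surj_col {t : ℕ} (j x : Fin t) : ∃ i, Lt i j = x :=
  (Finite.injective_iff_surjective.1 (col_inj j)) x

include fs fsur oa in
theorem phi_rigid (g : Q × Fin t → Q × Fin t → ((F × Bool) × Fin t) ⊕ Fin t)
    (hr : ∀ x, Injective (g x)) (hc : ∀ y, Injective (fun x => g x y))
    (hg : ∀ x y, (x, y) ∉ TB (Q := Q) t → g x y = Phi f o t x y) : g = Phi f o t := by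
  have hoff : ∀ x y : Q × Fin t, x.1 ≠ y.1 → g x y = Phi f o t x y := by
    intro x y h
    apply hg
    intro h2
    simp only [TB, mem_filter, mem_univ, true_and] at h2
    exact h h2.1
  -- the diagonal blocks have colours `inr`
  have hdiag : ∀ (u : Q) (i j : Fin t), ∃ z, g (u, i) (u, j) = Sum.inr z := by
    intro u i j
    rcases hz : g (u, i) (u, j) with ⟨⟨φ, b⟩, x⟩ | z
    · exfalso
      obtain ⟨v, hv, hφ⟩ := fsur u φ
      by_cases hb : o u v = b
      · -- in the row
        obtain ⟨j', hj'⟩ := Lt_surj_row i x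
        have h1 : g (u, i) (v, j') = g (u, i) (u, j) := by
          rw [hoff _ _ (Ne.symm hv), hz]
          simp only [Phi]
          rw [if_neg (Ne.symm hv), hφ, hb, hj']
        have h2 := hr _ h1
        exact hv (congrArg Prod.fst h2)
      · -- in the column
        obtain ⟨i', hi'⟩ := Lt_surj_col j x
        have hb2 : o v u = b := by
          rw [oa u v (Ne.symm hv)]
          cases h : o u v <;> cases b <;> simp_all
        have h1 : g (v, i') (u, j) = g (u, i) (u, j) := by
          rw [hoff _ _ hv, hz]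
          simp only [Phi]
          rw [if_neg hv, fs v u, hφ, hb2, hi']
        have h2 := hc _ h1
        exact hv (congrArg Prod.fst h2)
    · exact ⟨z, rfl⟩
  choose G hG using hdiag
  have hGL : ∀ u, G u = Lt := by
    intro u
    apply rigid (G u)
    · intro i j j' h
      have h1 : g (u, i) (u, j) = g (u, i) (u, j') := by rw [hG, hG, h]
      exact congrArg Prod.snd (hr _ h1)
    · intro j i i' h
      have h1 : g (u, i) (u, j) = g (u, i') (u, j) := by
        rw [hG, hG]
        exact congrArg Sum.inr h
      exact congrArg Prod.snd (hc _ h1)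
    · intro i j hij
      have h1 := hg (u, i) (u, j) (by
        intro h2
        simp only [TB, mem_filter, mem_univ, true_and] at h2
        exact hij h2)
      rw [hG] at h1
      simp only [Phi, if_true] at h1
      exact Sum.inr_injective h1
  funext x y
  by_cases h : x.1 = y.1
  · obtain ⟨u, i⟩ := x
    obtain ⟨v, j⟩ := y
    simp only at h
    subst h
    rw [hG, hGL]
    simp [Phi]
  · exact hoff x y h

include fs fi fsur oa in
theorem block_upper (hF : Fintype.card F + 1 = Fintype.card Q) (n k : ℕ)
    (hn : n = Fintype.card Q * t) (hk : k + t = 2 * n) :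
    ∃ S : Finset (Fin n × Fin n), S.card + Fintype.card Q * (TT t).card = n ^ 2 ∧
      ∃ p : S → Fin k,
      ∃! c : (SimpleGraph.boxProd (⊤ : SimpleGraph (Fin n)) (⊤ : SimpleGraph (Fin n))).Coloring
        (Fin k), ∀ v : S, c v = p v := by
  have hI : Fintype.card (Q × Fin t) = n := by
    rw [Fintype.card_prod, Fintype.card_fin, hn]
  have hK : Fintype.card (((F × Bool) × Fin t) ⊕ Fin t) = k := by
    rw [Fintype.card_sum, Fintype.card_prod, Fintype.card_prod, Fintype.card_bool,
      Fintype.card_fin]
    have h1 : n = Fintype.card F * t + t := by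
      rw [hn, ← hF]
      ring
    have h2 : Fintype.card F * 2 * t = 2 * (Fintype.card F * t) := by ring
    rw [h2]
    omega
  have := Pool.Agent.Helper372.Rook.transfer hI hK (Phi f o t) (phi_row f o t fi)
    (phi_col f o t fs fi) (TB t) (fun g h1 h2 h3 => phi_rigid f o t fs fsur oa g h1 h2 h3)
  rw [card_TB] at this
  exact this

end block

/-- the even numbers of blocks -/
theorem upper_exists (q t n k : ℕ) (hq : Even q) (hq0 : 0 < q) (hn : n = q * t)
    (hk : k + t = 2 * n) :
    ∃ S : Finset (Fin n × Fin n), S.card + q * (TT t).card = n ^ 2 ∧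
      ∃ p : S → Fin k,
      ∃! c : (SimpleGraph.boxProd (⊤ : SimpleGraph (Fin n)) (⊤ : SimpleGraph (Fin n))).Coloring
        (Fin k), ∀ v : S, c v = p v := by
  obtain ⟨m, hm⟩ := hq
  rcases Nat.lt_or_ge m 2 with h | h
  · -- two blocks
    have hm1 : q = 2 := by omega
    subst hm1
    have := block_upper (Q := Bool) (F := Unit) (fun _ _ => ()) (fun u _ => u) t
      (fun _ _ => rfl) (by decide) (by decide) (by decide) (by simp) n k (by simpa using hn) hk
    simpa using this
  · obtain ⟨l, hl⟩ : ∃ l, m = l + 2 := ⟨m - 2, by omega⟩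
    have hcard : Fintype.card (Option (ZMod (2 * l + 3))) = q := by
      rw [Fintype.card_option, ZMod.card]
      omega
    have hcF : Fintype.card (ZMod (2 * l + 3)) + 1 = Fintype.card (Option (ZMod (2 * l + 3))) := by
      rw [Fintype.card_option]
    have := block_upper (Q := Option (ZMod (2 * l + 3))) (F := ZMod (2 * l + 3))
      (Pool.Agent.Helper372.Rook.ff l) (Pool.Agent.Helper372.Rook.oo l) t
      (Pool.Agent.Helper372.Rook.ff_symm l) (Pool.Agent.Helper372.Rook.ff_inj l)
      (Pool.Agent.Helper372.Rook.ff_surj l) (Pool.Agent.Helper372.Rook.oo_anti l) hcF n k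
      (by rw [hcard]; exact hn) hk
    rw [hcard] at this
    exact this

end Pool.Agent.W2helper91.RK
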