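import Mathlib

/-!
# Uniquely extendable partial colourings: the list sizes are bounded by the edges

If a partial colouring with uncoloured set `U` has a unique extension `c`, then the total number
of alternative colours available at the vertices of `U` is at most the number of edges inside `U`.
-/

set_option autoImplicit false

namespace Pool.Agent.W2helper91.RK

open Finset

section general

variable {V K : Type*} [DecidableEq V] [DecidableEq K]

/-- `2 * (number of alternatives) ≤ number of arcs inside U`. -/
theorem alternatives_le (adj : V → V → Prop) [DecidableRel adj] (hsymm : ∀ v w, adj v w → adj w v)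
    (c : V → K) (U : Finset V) (hc : ∀ v w, adj v w → c v ≠ c w)
    (huniq : ∀ g : V → K, (∀ v w, adj v w → g v ≠ g w) → (∀ v, v ∉ U → g v = c v) → g = c)
    (P : Finset (V × K))
    (hP : ∀ p ∈ P, p.1 ∈ U ∧ p.2 ≠ c p.1 ∧ ∀ w, adj p.1 w → w ∉ U → c w ≠ p.2) :
    2 * P.card ≤ ((U ×ˢ U).filter (fun q => adj q.1 q.2 ∧
      ((q.1, c q.2) ∈ P ∨ (q.2, c q.1) ∈ P))).card := by
  induction P using Finset.strongInduction with
  | H P ih =>
    rcases P.eq_empty_or_nonempty with rfl | ⟨⟨v0, a0⟩, h0⟩
    · simp
    · let B : Finset V := U.filter (fun v => (v, Equiv.swap (c v0) a0 (c v)) ∈ P ∧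
        (c v = c v0 ∨ c v = a0))
      let g : V → K := fun v => if v ∈ B then Equiv.swap (c v0) a0 (c v) else c v
      have hP0 := hP _ h0
      have hv0 : v0 ∈ B := by
        simp only [B, mem_filter, Equiv.swap_apply_left]
        exact ⟨hP0.1, h0, Or.inl trivial⟩
      have hgne : g ≠ c := by
        intro he
        have := congrFun he v0
        simp only [g, if_pos hv0, Equiv.swap_apply_left] at this
        exact hP0.2.1 this
      have hex : ∃ v w, adj v w ∧ g v = g w := by
        by_contra hno
        push Not at hno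
        apply hgne
        apply huniq g hno
        intro v hv
        have : v ∉ B := fun h => hv (mem_filter.1 h).1
        simp [g, this]
      -- an edge leaving `B`
      have hex2 : ∃ v w, adj v w ∧ v ∈ B ∧ w ∉ B ∧ Equiv.swap (c v0) a0 (c v) = c w := by
        obtain ⟨v, w, hvw, he⟩ := hex
        by_cases h1 : v ∈ B <;> by_cases h2 : w ∈ B
        · simp only [g, if_pos h1, if_pos h2] at he
          exact absurd ((Equiv.swap _ _).injective he) (hc v w hvw)
        · simp only [g, if_pos h1, if_neg h2] at he
          exact ⟨v, w, hvw, h1, h2, he⟩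
        · simp only [g, if_neg h1, if_pos h2] at he
          exact ⟨w, v, hsymm v w hvw, h2, h1, he.symm⟩
        · simp only [g, if_neg h1, if_neg h2] at he
          exact absurd he (hc v w hvw)
      obtain ⟨v, w, hvw, hv, hw, he⟩ := hex2
      have hvB := mem_filter.1 hv
      rw [he] at hvB
      have hwU : w ∈ U := by
        by_contra hwU
        exact (hP _ hvB.2.1).2.2 w hvw hwU rfl
      have hnot : (w, c v) ∉ P := by
        intro hin
        apply hw
        have h3 : Equiv.swap (c v0) a0 (c w) = c v := by
          rw [← he, Equiv.swap_apply_self]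
        simp only [B, mem_filter]
        refine ⟨hwU, by rw [h3]; exact hin, ?_⟩
        rw [← he]
        rcases hvB.2.2 with h | h
        · rw [h, Equiv.swap_apply_left]
          exact Or.inr rfl
        · rw [h, Equiv.swap_apply_right]
          exact Or.inl rfl
      have hne : v ≠ w := fun h => hw (h ▸ hv)
      have hIH := ih (P.erase (v, c w)) (erase_ssubset hvB.2.1)
        (fun p hp => hP p (mem_of_mem_erase hp))
      have hcard : (P.erase (v, c w)).card + 1 = P.card := card_erase_add_one hvB.2.1
      have hsub : insert (v, w) (insert (w, v) ((U ×ˢ U).filter (fun q => adj q.1 q.2 ∧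
          ((q.1, c q.2) ∈ P.erase (v, c w) ∨ (q.2, c q.1) ∈ P.erase (v, c w))))) ⊆
          (U ×ˢ U).filter (fun q => adj q.1 q.2 ∧
          ((q.1, c q.2) ∈ P ∨ (q.2, c q.1) ∈ P)) := by
        intro q hq
        rw [mem_insert, mem_insert] at hq
        rcases hq with rfl | rfl | hq
        · simp only [mem_filter, mem_product]
          exact ⟨⟨hvB.1, hwU⟩, hvw, Or.inl hvB.2.1⟩
        · simp only [mem_filter, mem_product]
          exact ⟨⟨hwU, hvB.1⟩, hsymm _ _ hvw, Or.inr hvB.2.1⟩
        · simp only [mem_filter] at hq ⊢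
          exact ⟨hq.1, hq.2.1, hq.2.2.imp mem_of_mem_erase mem_of_mem_erase⟩
      have hle := card_le_card hsub
      have hn1 : (w, v) ∉ (U ×ˢ U).filter (fun q => adj q.1 q.2 ∧
          ((q.1, c q.2) ∈ P.erase (v, c w) ∨ (q.2, c q.1) ∈ P.erase (v, c w))) := by
        intro h
        rw [mem_filter] at h
        rcases h.2.2 with h | h
        · exact hnot (mem_erase.1 h).2
        · exact (mem_erase.1 h).1 rfl
      have hn2 : (v, w) ∉ insert (w, v) ((U ×ˢ U).filter (fun q => adj q.1 q.2 ∧
          ((q.1, c q.2) ∈ P.erase (v, c w) ∨ (q.2, c q.1) ∈ P.erase (v, c w)))) := by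
        intro h
        rw [mem_insert] at h
        rcases h with h | h
        · exact hne (congrArg Prod.fst h)
        · rw [mem_filter] at h
          rcases h.2.2 with h | h
          · exact (mem_erase.1 h).1 rfl
          · exact hnot (mem_erase.1 h).2
      rw [card_insert_of_notMem hn2, card_insert_of_notMem hn1] at hle
      omega

end general

/-! ## The rook graph -/

section rook

variable {n : ℕ}

/-- adjacency of cells -/
def adj (v w : Fin n × Fin n) : Prop := (v.1 = w.1 ∧ v.2 ≠ w.2) ∨ (v.2 = w.2 ∧ v.1 ≠ w.1)

instance : DecidableRel (adj (n := n)) := fun v w => by unfold adj; infer_instance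

theorem sum_row (U : Finset (Fin n × Fin n)) (f : Fin n × Fin n → Fin n) :
    U.card ^ 2 ≤ n * ∑ v ∈ U, (U.filter (fun w => f w = f v)).card := by
  have h1 : ∑ v ∈ U, (U.filter (fun w => f w = f v)).card =
      ∑ i : Fin n, (U.filter (fun w => f w = i)).card ^ 2 := by
    rw [← Finset.sum_fiberwise U f]
    refine Finset.sum_congr rfl fun i _ => ?_
    have : ∀ v ∈ U.filter (fun w => f w = i), (U.filter (fun w => f w = f v)).card =
        (U.filter (fun w => f w = i)).card := by
      intro v hv
      rw [(mem_filter.1 hv).2]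
    rw [Finset.sum_congr rfl this, Finset.sum_const, smul_eq_mul, sq]
  have h2 : U.card = ∑ i : Fin n, (U.filter (fun w => f w = i)).card :=
    card_eq_sum_card_fiberwise (fun x _ => mem_univ (f x))
  rw [h1, h2]
  have h3 := sq_sum_le_card_mul_sum_sq (s := (univ : Finset (Fin n)))
    (f := fun i => (U.filter (fun w => f w = i)).card)
  rwa [card_univ, Fintype.card_fin] at h3

theorem compl_row (U : Finset (Fin n × Fin n)) (i : Fin n) :
    ((Uᶜ).filter (fun w => w.1 = i)).card + (U.filter (fun w => w.1 = i)).card = n := by
  have h : (univ.filter (fun w : Fin n × Fin n => w.1 = i)) = {i} ×ˢ univ := by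
    ext ⟨a, b⟩
    simp only [mem_filter, mem_univ, true_and, mem_product, mem_singleton, and_true]
  have h2 : (univ.filter (fun w : Fin n × Fin n => w.1 = i)).card = n := by
    rw [h]
    simp
  rw [← card_union_of_disjoint, ← filter_union, union_comm, union_compl, h2]
  exact disjoint_filter_filter disjoint_compl_left

theorem compl_col (U : Finset (Fin n × Fin n)) (i : Fin n) :
    ((Uᶜ).filter (fun w => w.2 = i)).card + (U.filter (fun w => w.2 = i)).card = n := by
  have h : (univ.filter (fun w : Fin n × Fin n => w.2 = i)) = univ ×ˢ {i} := by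
    ext ⟨a, b⟩
    simp only [mem_filter, mem_univ, true_and, mem_product, mem_singleton, and_true]
  have h2 : (univ.filter (fun w : Fin n × Fin n => w.2 = i)).card = n := by
    rw [h]
    simp
  rw [← card_union_of_disjoint, ← filter_union, union_comm, union_compl, h2]
  exact disjoint_filter_filter disjoint_compl_left

/-- at most `n (2 n - k)` cells are uncoloured -/
theorem card_le (k : ℕ) (c : Fin n × Fin n → Fin k) (U : Finset (Fin n × Fin n))
    (hc : ∀ v w, adj v w → c v ≠ c w)
    (huniq : ∀ g : Fin n × Fin n → Fin k, (∀ v w, adj v w → g v ≠ g w) →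
      (∀ v, v ∉ U → g v = c v) → g = c) :
    U.card + n * k ≤ 2 * n ^ 2 ∨ U.card = 0 := by
  classical
  rcases Nat.eq_zero_or_pos U.card with hu | hu
  · exact Or.inr hu
  left
  let A : Fin n × Fin n → Finset (Fin k) := fun v =>
    univ.filter (fun a => a ≠ c v ∧ ∀ w, adj v w → w ∉ U → c w ≠ a)
  let P : Finset ((Fin n × Fin n) × Fin k) := (U ×ˢ univ).filter (fun p => p.2 ∈ A p.1)
  let ra : Fin n × Fin n → ℕ := fun v => (U.filter (fun w => w.1 = v.1)).card
  let rb : Fin n × Fin n → ℕ := fun v => (U.filter (fun w => w.2 = v.2)).card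
  have hP := alternatives_le adj (by
    intro v w h
    rcases h with h | h
    · exact Or.inl ⟨h.1.symm, h.2.symm⟩
    · exact Or.inr ⟨h.1.symm, h.2.symm⟩) c U hc huniq P (by
      intro p hp
      simp only [P, A, mem_filter, mem_product, mem_univ, true_and, and_true] at hp
      exact ⟨hp.1, hp.2.1, hp.2.2⟩)
  -- the number of alternatives
  have hPc : P.card = ∑ v ∈ U, (A v).card := by
    rw [card_eq_sum_card_fiberwise (f := Prod.fst) (t := U)
      (fun p hp => (mem_product.1 (mem_filter.1 hp).1).1)]
    refine Finset.sum_congr rfl fun v hv => ?_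
    refine card_bij' (fun p _ => p.2) (fun a _ => (v, a)) ?_ ?_ ?_ ?_
    · intro p hp
      simp only [P, mem_filter, mem_product, mem_univ, and_true] at hp
      rw [← hp.2]
      exact hp.1.2
    · intro a ha
      simp only [P, mem_filter, mem_product, mem_univ, and_true]
      exact ⟨hv, ha⟩
    · intro p hp
      simp only [mem_filter] at hp
      ext <;> simp [hp.2]
    · intro a ha
      rfl
  have hA : ∀ v ∈ U, k + (ra v + rb v) ≤ (A v).card + (1 + 2 * n) := by
    intro v hv
    have hcov : (univ : Finset (Fin k)) ⊆ A v ∪ ({c v} ∪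
        (((Uᶜ).filter (fun w => w.1 = v.1)).image c ∪
          ((Uᶜ).filter (fun w => w.2 = v.2)).image c)) := by
      intro a _
      by_cases h1 : a ∈ A v
      · exact mem_union_left _ h1
      · apply mem_union_right
        by_cases h2 : a = c v
        · exact mem_union_left _ (mem_singleton.2 h2)
        · apply mem_union_right
          simp only [A, mem_filter, mem_univ, true_and, not_and, not_forall] at h1
          obtain ⟨w, hw, hwU, hwa⟩ := h1 h2
          rw [not_not] at hwa
          rcases hw with hw | hw
          · apply mem_union_left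
            exact mem_image.2 ⟨w, mem_filter.2 ⟨mem_compl.2 hwU, hw.1.symm⟩, hwa⟩
          · apply mem_union_right
            exact mem_image.2 ⟨w, mem_filter.2 ⟨mem_compl.2 hwU, hw.1.symm⟩, hwa⟩
    have h1 := card_le_card hcov
    rw [card_univ, Fintype.card_fin] at h1
    have h2 := card_union_le (A v) ({c v} ∪
        (((Uᶜ).filter (fun w => w.1 = v.1)).image c ∪
          ((Uᶜ).filter (fun w => w.2 = v.2)).image c))
    have h3 := card_union_le {c v}
        (((Uᶜ).filter (fun w => w.1 = v.1)).image c ∪
          ((Uᶜ).filter (fun w => w.2 = v.2)).image c)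
    have h4 := card_union_le (((Uᶜ).filter (fun w => w.1 = v.1)).image c)
          (((Uᶜ).filter (fun w => w.2 = v.2)).image c)
    have h5 : (((Uᶜ).filter (fun w => w.1 = v.1)).image c).card ≤
      ((Uᶜ).filter (fun w => w.1 = v.1)).card := card_image_le
    have h6 : (((Uᶜ).filter (fun w => w.2 = v.2)).image c).card ≤
      ((Uᶜ).filter (fun w => w.2 = v.2)).card := card_image_le
    have h7 := compl_row U v.1
    have h8 := compl_col U v.2
    rw [card_singleton] at h3
    simp only [ra, rb]
    omega
  have hsum := Finset.sum_le_sum hA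
  have es1 : ∑ v ∈ U, (k + (ra v + rb v)) = U.card * k + ∑ v ∈ U, (ra v + rb v) := by
    rw [Finset.sum_add_distrib, Finset.sum_const, smul_eq_mul]
  have es2 : ∑ v ∈ U, ((A v).card + (1 + 2 * n)) = P.card + U.card * (1 + 2 * n) := by
    rw [Finset.sum_add_distrib, Finset.sum_const, smul_eq_mul, hPc]
  rw [es1, es2] at hsum
  -- the number of arcs
  have hD : ((U ×ˢ U).filter (fun q => adj q.1 q.2 ∧
      ((q.1, c q.2) ∈ P ∨ (q.2, c q.1) ∈ P))).card + U.card * 2 ≤ ∑ v ∈ U, (ra v + rb v) := by
    have h1 : ((U ×ˢ U).filter (fun q => adj q.1 q.2 ∧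
        ((q.1, c q.2) ∈ P ∨ (q.2, c q.1) ∈ P))).card ≤
        ∑ v ∈ U, (U.filter (fun w => adj v w)).card := by
      refine le_trans (card_le_card (t := (U ×ˢ U).filter (fun q => adj q.1 q.2)) ?_) ?_
      · intro q hq
        simp only [mem_filter] at hq ⊢
        exact ⟨hq.1, hq.2.1⟩
      · rw [card_eq_sum_card_fiberwise (f := Prod.fst) (t := U)
          (fun p hp => (mem_product.1 (mem_filter.1 hp).1).1)]
        refine Finset.sum_le_sum fun v hv => ?_
        refine card_le_card_of_injOn Prod.snd ?_ ?_
        · intro q hq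
          simp only [coe_filter, mem_filter, mem_product, Set.mem_setOf_eq] at hq ⊢
          rw [← hq.2]
          exact ⟨hq.1.1.2, hq.1.2⟩
        · intro q hq q' hq' he
          simp only [coe_filter, mem_filter, mem_product, Set.mem_setOf_eq] at hq hq'
          ext1
          · rw [hq.2, hq'.2]
          · exact he
    have h2 : ∑ v ∈ U, (U.filter (fun w => adj v w)).card + U.card * 2 ≤
        ∑ v ∈ U, (ra v + rb v) := by
      rw [← smul_eq_mul, ← Finset.sum_const, ← Finset.sum_add_distrib]
      refine Finset.sum_le_sum fun v hv => ?_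
      have hsub : U.filter (fun w => adj v w) ⊆
          (U.filter (fun w => w.1 = v.1)).erase v ∪ (U.filter (fun w => w.2 = v.2)).erase v := by
        intro w hw
        simp only [mem_filter] at hw
        rcases hw.2 with h | h
        · apply mem_union_left
          refine mem_erase.2 ⟨?_, mem_filter.2 ⟨hw.1, h.1.symm⟩⟩
          rintro rfl
          exact h.2 rfl
        · apply mem_union_right
          refine mem_erase.2 ⟨?_, mem_filter.2 ⟨hw.1, h.1.symm⟩⟩
          rintro rfl
          exact h.2 rfl
      have h3 := card_le_card hsub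
      have h4 := card_union_le ((U.filter (fun w => w.1 = v.1)).erase v)
        ((U.filter (fun w => w.2 = v.2)).erase v)
      have h5 : ((U.filter (fun w => w.1 = v.1)).erase v).card + 1 =
        (U.filter (fun w => w.1 = v.1)).card := card_erase_add_one (mem_filter.2 ⟨hv, rfl⟩)
      have h6 : ((U.filter (fun w => w.2 = v.2)).erase v).card + 1 =
        (U.filter (fun w => w.2 = v.2)).card := card_erase_add_one (mem_filter.2 ⟨hv, rfl⟩)
      simp only [ra, rb]
      omega
    omega
  have hX : 2 * U.card ^ 2 ≤ n * ∑ v ∈ U, (ra v + rb v) := by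
    rw [Finset.sum_add_distrib]
    have h1 := sum_row U (fun w => w.1)
    have h2 := sum_row U (fun w => w.2)
    simp only [ra, rb]
    rw [mul_add]
    linarith
  -- put together
  set X := ∑ v ∈ U, (ra v + rb v) with hXd
  set u := U.card with hud
  have h1 : X + 2 * (u * k) ≤ 4 * (u * n) := by
    have : u * (1 + 2 * n) = u + 2 * (u * n) := by ring
    rw [this] at hsum
    omega
  have h2 : 2 * u ^ 2 + 2 * (u * (n * k)) ≤ 4 * (u * n ^ 2) := by
    have h3 := Nat.mul_le_mul_left n h1
    have e1 : n * (X + 2 * (u * k)) = n * X + 2 * (u * (n * k)) := by ring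
    have e2 : n * (4 * (u * n)) = 4 * (u * n ^ 2) := by ring
    rw [e1, e2] at h3
    omega
  have h4 : u * (u + n * k) ≤ u * (2 * n ^ 2) := by
    have e1 : u * (u + n * k) = u ^ 2 + u * (n * k) := by ring
    have e2 : u * (2 * n ^ 2) = 2 * (u * n ^ 2) := by ring
    rw [e1, e2]
    omega
  exact Nat.le_of_mul_le_mul_left h4 hu

end rook

end Pool.Agent.W2helper91.RK
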